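import Pool.Agent.Lib.c113aaP.MainO

set_option autoImplicit false

namespace Pool.Agent.Results.MP_c113aa_an.EqualityAllExponents

/-- The equality statement of Q1 for all exponents `p > 1` simultaneously, in all degrees at least an
absolute constant: the largest distance from a zero of F to the nearest critical point equals the
p-variance of the zeros if and only if F = a (z - c)^n - b. -/
theorem result :
    ∃ n₀ : ℕ, ∀ n : ℕ, n₀ ≤ n → ∀ p : ℝ, 1 < p →
      ∀ F : Polynomial ℂ, F.natDegree = n →
      ((sSup {d : ℝ | ∃ z ∈ F.roots,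
          d = sInf {r : ℝ | ∃ w ∈ (Polynomial.derivative F).roots, r = ‖z - w‖}} =
        ⨅ c : ℂ, ((1 / (n : ℝ)) * (F.roots.map (fun z => ‖z - c‖ ^ p)).sum) ^ (1 / p)) ↔
      ∃ a b c : ℂ, F = Polynomial.C a * (Polynomial.X - Polynomial.C c) ^ n
        - Polynomial.C b) := by
  obtain ⟨n₀, h⟩ := Pool.MP_c113aa_an.B1.main_one
  exact ⟨n₀, fun n hn p hp F hF => (h n hn F hF).2.1 p hp⟩

end Pool.Agent.Results.MP_c113aa_an.EqualityAllExponents
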