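import Pool.Agent.Lib.c113aaE.Thr

set_option autoImplicit false

namespace Pool.Agent.Results.MP_c113aa_an.ExponentThreshold

open Polynomial

/-- `h(F,F')`: the largest distance from a zero of `F` to the nearest critical point. -/
noncomputable def h (F : ℂ[X]) : ℝ :=
  sSup {d : ℝ | ∃ z ∈ F.roots, d = sInf {r : ℝ | ∃ w ∈ (derivative F).roots, r = ‖z - w‖}}

/-- `σ_p(F)`, the `p`-variance of the zeros, for a polynomial of degree `n`. -/
noncomputable def sigma (n : ℕ) (p : ℝ) (F : ℂ[X]) : ℝ :=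
  ⨅ c : ℂ, ((1 / (n : ℝ)) * (F.roots.map (fun z => ‖z - c‖ ^ p)).sum) ^ (1 / p)

/-- `σ_∞(F)`, the radius of the smallest disk that contains the zeros. -/
noncomputable def sigmaInf (F : ℂ[X]) : ℝ := ⨅ c : ℂ, sSup {r : ℝ | ∃ z ∈ F.roots, r = ‖z - c‖}

/-- `F = a (z - c)^n - b`. -/
def Special (n : ℕ) (F : ℂ[X]) : Prop := ∃ a b c : ℂ, F = C a * (X - C c) ^ n - C b

/-- Borcea's `p`-variance inequality in degree `n`. -/
def Inequality (n : ℕ) (p : ℝ) : Prop := ∀ F : ℂ[X], F.natDegree = n → h F ≤ sigma n p F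

/-- The statement of Q1 for the exponent `p` in degree `n`. -/
def Equality (n : ℕ) (p : ℝ) : Prop :=
  ∀ F : ℂ[X], F.natDegree = n → (h F = sigma n p F ↔ Special n F)

/-- Sendov's inequality and the Phelps-Rodrigues statement on its equality cases, in degree `n`
(the case `p = ∞` of the two preceding statements). -/
def PhelpsRodrigues (n : ℕ) : Prop :=
  ∀ F : ℂ[X], F.natDegree = n → h F ≤ sigmaInf F ∧ (h F = sigmaInf F ↔ Special n F)

/-- The threshold exponent of a degree: in each degree `n ≥ 2` there is `t n ∈ [1, ∞]` such that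
Borcea's inequality holds exactly for the exponents `p ≥ t n`, the statement of Q1 holds exactly for
the exponents `p > t n`, and `t n < ∞` exactly if Sendov's inequality and the Phelps-Rodrigues
statement hold in degree `n`.  Here `t 4` and `t 5` are finite, so the statement of Q1 holds in the
degrees 4 and 5 for all large `p`. -/
theorem result :
    ∃ t : ℕ → EReal,
      (∀ n : ℕ, 2 ≤ n → 1 ≤ t n ∧
        (∀ p : ℝ, 1 ≤ p → (Inequality n p ↔ t n ≤ (p : EReal))) ∧
        (∀ p : ℝ, 1 < p → (Equality n p ↔ t n < (p : EReal))) ∧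
        (PhelpsRodrigues n ↔ t n < ⊤)) ∧
      t 4 < ⊤ ∧ t 5 < ⊤ :=
  Pool.Agent.Lib.c113aaE.thr

end Pool.Agent.Results.MP_c113aa_an.ExponentThreshold
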