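import Pool.Agent.Lib.c113aaP.MainO

set_option autoImplicit false

namespace Pool.Agent.Results.MP_c113aa_an.InequalityAllExponents

/-- Borcea's p-variance inequality for all exponents `p ≥ 1` in all degrees at least an absolute
constant, with the equality cases of the strongest case `p = 1`. -/
theorem result :
    ∃ n₀ : ℕ, ∀ n : ℕ, n₀ ≤ n → ∀ F : Polynomial ℂ, F.natDegree = n →
      (∀ p : ℝ, 1 ≤ p →
        sSup {d : ℝ | ∃ z ∈ F.roots,
          d = sInf {r : ℝ | ∃ w ∈ (Polynomial.derivative F).roots, r = ‖z - w‖}} ≤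
        ⨅ c : ℂ, ((1 / (n : ℝ)) * (F.roots.map (fun z => ‖z - c‖ ^ p)).sum) ^ (1 / p)) ∧
      (sSup {d : ℝ | ∃ z ∈ F.roots,
          d = sInf {r : ℝ | ∃ w ∈ (Polynomial.derivative F).roots, r = ‖z - w‖}} =
        (⨅ c : ℂ, ((1 / (n : ℝ)) *
          (F.roots.map (fun z => ‖z - c‖ ^ (1 : ℝ))).sum) ^ (1 / (1 : ℝ))) ↔
        (∃ a b c : ℂ, F = Polynomial.C a * (Polynomial.X - Polynomial.C c) ^ n
          - Polynomial.C b) ∨
        ∃ a b c : ℂ, F = Polynomial.C a * (Polynomial.X - Polynomial.C b)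
          * (Polynomial.X - Polynomial.C c) ^ (n - 1)) := by
  obtain ⟨n₀, h⟩ := Pool.MP_c113aa_an.B1.main_one
  exact ⟨n₀, fun n hn F hF => ⟨(h n hn F hF).1, (h n hn F hF).2.2⟩⟩

end Pool.Agent.Results.MP_c113aa_an.InequalityAllExponents
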