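import Pool.Agent.Lib.c113aaT.Main

set_option autoImplicit false

namespace Pool.Agent.Results.MP_c113aa_an.ThreeZeros

/-- For a complex polynomial F of any degree n at least 2 that has at most three distinct zeros, or
whose zeros all lie on a line: the largest distance from a zero of F to the nearest critical point
is at most the p-variance of the zeros for every real p at least 1, and for every real p > 1 it is
equal to the p-variance if and only if F = a (z - c)^n - b. -/
theorem result (p : ℝ) (n : ℕ) (hn : 2 ≤ n) (F : Polynomial ℂ) (hF : F.natDegree = n)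
    (hyp : F.roots.toFinset.card ≤ 3 ∨ Collinear ℝ {z : ℂ | z ∈ F.roots}) :
    (1 ≤ p → sSup {d : ℝ | ∃ z ∈ F.roots,
          d = sInf {r : ℝ | ∃ w ∈ (Polynomial.derivative F).roots, r = ‖z - w‖}} ≤
        ⨅ c : ℂ, ((1 / (n : ℝ)) * (F.roots.map (fun z => ‖z - c‖ ^ p)).sum) ^ (1 / p)) ∧
      (1 < p → (sSup {d : ℝ | ∃ z ∈ F.roots,
          d = sInf {r : ℝ | ∃ w ∈ (Polynomial.derivative F).roots, r = ‖z - w‖}} =
        (⨅ c : ℂ, ((1 / (n : ℝ)) * (F.roots.map (fun z => ‖z - c‖ ^ p)).sum) ^ (1 / p)) ↔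
      ∃ a b c : ℂ, F = Polynomial.C a * (Polynomial.X - Polynomial.C c) ^ n
        - Polynomial.C b)) :=
  Pool.Agent.Lib.c113aaT.main n hn F hF hyp p

end Pool.Agent.Results.MP_c113aa_an.ThreeZeros
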